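import Mathlib

/-! Weakly left duo rings, with or without identity, are left Dischinger. -/

namespace Pool.Agent.Results.MP_1cad20_al.Dischinger

universe u

/-- `pw a n` is the power of `a` with exponent `n + 1` -/
def pw {R : Type u} [NonUnitalRing R] (a : R) : ℕ → R
  | 0 => a
  | n + 1 => pw a n * a

/-- for every `a` some left ideal `R a^n`, `n ≥ 1`, is a two-sided ideal -/
def WeaklyLeftDuo (R : Type u) [NonUnitalRing R] : Prop :=
  ∀ a : R, ∃ (n : ℕ) (I : TwoSidedIdeal R), (I : Set R) = Set.range fun r => r * pw a n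

lemma core {A : Type u} [Ring A] (J : TwoSidedIdeal A)
    (hJ : ∀ g ∈ J, ∃ n : ℕ, ∀ r ∈ J, ∀ s ∈ J, ∃ t ∈ J, r * g ^ (n + 1) * s = t * g ^ (n + 1))
    {a x : A} (ha : a ∈ J) (hx : x ∈ J) (h : a = x * (a * a)) : a = a * a * x := by
  have hpow : ∀ k : ℕ, a = x ^ k * a ^ (k + 1) := by
    intro k
    induction k with
    | zero => simp
    | succ k ih =>
      calc a = x ^ k * (a * a ^ k) := by rw [← pow_succ']; exact ih
        _ = x ^ k * (x * (a * a) * a ^ k) := by rw [← h]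
        _ = x ^ (k + 1) * a ^ (k + 1 + 1) := by
          rw [pow_succ x, pow_succ' a, pow_succ' a]; simp only [mul_assoc]
  -- the left ideal generated by a is closed under right multiplication
  have hI : ∀ r ∈ J, ∀ s ∈ J, ∃ t ∈ J, r * a * s = t * a := by
    intro r hr s hs
    obtain ⟨n, hn⟩ := hJ a ha
    obtain ⟨t, ht, e⟩ := hn (r * x ^ n) (J.mul_mem_right _ _ hr) s hs
    refine ⟨t * a ^ n, J.mul_mem_right _ _ ht, ?_⟩
    rw [mul_assoc t, ← pow_succ, ← e, mul_assoc r (x ^ n), ← hpow]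
  have hnil : ∀ s ∈ J, s * a * (a * a) = 0 → IsNilpotent (s * a) := by
    intro s hs h0
    have hg : s * a ∈ J := J.mul_mem_right _ _ hs
    obtain ⟨n, hn⟩ := hJ _ hg
    obtain ⟨t, -, e⟩ := hn _ hg (s * x) (J.mul_mem_right _ _ hs)
    refine ⟨n + 1 + 1 + 1, ?_⟩
    have e1 : s * a = s * x * (a * a) := by rw [mul_assoc, ← h]
    calc (s * a) ^ (n + 1 + 1 + 1) = s * a * (s * a) ^ (n + 1) * (s * x * (a * a)) := by
          rw [← e1, ← pow_succ', ← pow_succ]
      _ = t * (s * a) ^ n * (s * a * (a * a)) := by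
          rw [← mul_assoc _ (s * x), e, pow_succ]; simp only [mul_assoc]
      _ = 0 := by rw [h0, mul_zero]
  set b := x * a with hb
  have hbJ : b ∈ J := J.mul_mem_right _ _ hx
  have hba : b * a = a := by rw [hb, mul_assoc, ← h]
  have hua : (1 - b) * a = 0 := by rw [sub_mul, one_mul, hba, sub_self]
  obtain ⟨N, hN⟩ := hnil ((1 - b) * x) (J.mul_mem_left _ _ hx) (by
    rw [mul_assoc (1 - b), ← hb, mul_assoc, ← mul_assoc b, hba, ← mul_assoc, hua, zero_mul])
  have hc : Commute b (1 - b) := (Commute.one_right b).sub_right (Commute.refl b)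
  have hN' : b ^ (N + 1) * (1 - b) ^ (N + 1) = 0 := by
    rw [← hc.mul_pow, hc.eq, pow_succ, hb, ← mul_assoc (1 - x * a), ← hb, hN, zero_mul]
  have hbk : ∀ k : ℕ, b ^ k * a = a := by
    intro k
    induction k with
    | zero => simp
    | succ k ih => rw [pow_succ, mul_assoc, hba, ih]
  have hau : a * (1 - b) ^ (N + 1) = 0 := by
    have hh : b ^ (N + 1) ∈ J := by rw [pow_succ]; exact J.mul_mem_left _ _ hbJ
    obtain ⟨n, hn⟩ := hJ _ hh
    obtain ⟨t, -, e⟩ := hn b hbJ a ha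
    rw [← pow_mul, mul_assoc, hbk, hba, pow_mul] at e
    rw [e, pow_succ (b ^ (N + 1)), mul_assoc, mul_assoc, hN', mul_zero, mul_zero]
  obtain ⟨p, hp⟩ : ∃ p, 1 - (1 - b) ^ (N + 1) = p * b := by
    refine ⟨∑ i ∈ Finset.range (N + 1), (1 - b) ^ i, ?_⟩
    have := geom_sum_mul_neg (1 - b) (N + 1)
    rw [← this, sub_sub_cancel]
  have hea : p * b * a = a := by
    rw [← hp, sub_mul, one_mul, pow_succ, mul_assoc, hua, mul_zero, sub_zero]
  have hae : a * (p * b) = a := by rw [← hp, mul_sub, mul_one, hau, sub_zero]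
  obtain ⟨w, hw, hcw⟩ := hI b hbJ x hx
  rw [hba] at hcw
  have hν := hnil (w - p * x) (J.sub_mem hw (J.mul_mem_left _ _ hx)) (by
    rw [sub_mul, ← hcw, mul_assoc p, ← hb, sub_mul, mul_assoc a, ← h, ← mul_assoc (p * b), hea,
      sub_self])
  have hunit := hν.isUnit_one_add
  have key : ∀ k, k * a * a = 0 → k * a = 0 := by
    intro k hk
    apply hunit.mul_right_cancel
    rw [zero_mul, sub_mul, ← hcw, mul_assoc p, ← hb, mul_add, mul_one, mul_sub, ← mul_assoc _ a,
      hk, zero_mul, mul_assoc k a, hae]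
    abel
  have h1 : a * x * a = a := by
    have := key (a * x - 1) (by
      rw [sub_mul, sub_mul, one_mul, mul_assoc (a * x), mul_assoc a, ← h, sub_self])
    rwa [sub_mul, one_mul, sub_eq_zero] at this
  have h2 : a * x = b := by
    have := key (w - x) (by rw [sub_mul, ← hcw, ← hb, sub_mul, h1, hba, sub_self])
    rwa [sub_mul, ← hcw, ← hb, sub_eq_zero] at this
  rw [mul_assoc, h2, hb, ← mul_assoc, h1]

theorem result (R : Type u) [NonUnitalRing R] (hR : WeaklyLeftDuo R) (a x : R)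
    (h : a = x * (a * a)) : ∃ y : R, a = a * a * y := by
  have hpw : ∀ (g : R) (n : ℕ), ((pw g n : R) : Unitization ℤ R) = (g : Unitization ℤ R) ^ (n + 1) := by
    intro g n
    induction n with
    | zero => simp [pw]
    | succ n ih => rw [pw, Unitization.inr_mul, ih, ← pow_succ]
  let J : TwoSidedIdeal (Unitization ℤ R) := TwoSidedIdeal.ker (Unitization.fstHom ℤ R)
  have hJ : ∀ g, g ∈ J ↔ ∃ r : R, (r : Unitization ℤ R) = g := by
    intro g
    rw [TwoSidedIdeal.mem_ker]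
    constructor
    · intro hg
      refine ⟨g.snd, Unitization.ext ?_ ?_⟩
      · simpa using hg.symm
      · simp
    · rintro ⟨r, rfl⟩
      simp
  refine ⟨x, Unitization.inr_injective (R := ℤ) ?_⟩
  simp only [Unitization.inr_mul]
  have key := core (A := Unitization ℤ R) J ?_ ((hJ _).2 ⟨a, rfl⟩) ((hJ _).2 ⟨x, rfl⟩) ?_
  · exact key
  swap
  · rw [← Unitization.inr_mul, ← Unitization.inr_mul, ← h]
  · intro g hg
    obtain ⟨g, rfl⟩ := (hJ g).1 hg
    obtain ⟨n, I, hI⟩ := hR g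
    refine ⟨n, fun r hr s hs => ?_⟩
    obtain ⟨r, rfl⟩ := (hJ r).1 hr
    obtain ⟨s, rfl⟩ := (hJ s).1 hs
    have h1 : r * pw g n ∈ (I : Set R) := hI ▸ ⟨r, rfl⟩
    have h2 : r * pw g n * s ∈ (I : Set R) := I.mul_mem_right _ _ h1
    rw [hI] at h2
    obtain ⟨t, ht⟩ := h2
    refine ⟨t, (hJ _).2 ⟨t, rfl⟩, ?_⟩
    rw [← hpw, ← Unitization.inr_mul, ← Unitization.inr_mul, ← Unitization.inr_mul]
    exact congrArg _ ht.symm

end Pool.Agent.Results.MP_1cad20_al.Dischinger
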